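import Pool.Agent.Lib.MP_3e1e08_co.Game

/-- In one-dimensional Rugby on `ℤ × [n]` a robber of speed at least `10 ^ 31` needs a linear
number of cops: `n ≤ 10 ^ 50 * f s n` for every `n ≥ 1`, whichever side fixes the start. -/
theorem Pool.Agent.Results.MP_3e1e08_co.Linear.result :
    ∀ s n : ℕ, 10 ^ 31 ≤ s → 1 ≤ n →
      n ≤ 10 ^ 50 * Pool.Agent.Lib.MP_3e1e08_co.fSome s n ∧
      n ≤ 10 ^ 50 * Pool.Agent.Lib.MP_3e1e08_co.fAll s n :=
  fun _ _ hs hn => Pool.Agent.Lib.MP_3e1e08_co.linear hs hn
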